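import Pool.Agent.H30PB.Base

/-!
MP_74a576_co, Q1 (optimal pebbling number versus fractional optimal pebbling number): no absolute
constant exists, and quantitatively the ratio is at least `(1/12) (log₂ n)^(1/4)` for connected
graphs with arbitrarily large numbers `n` of vertices.
-/

set_option autoImplicit false

open Filter Topology

namespace Pool.Agent.Results.MP_74a576_co.Quantitative

/-- one pebbling step along an edge `uv`: two pebbles are taken off `u`, one is put on `v` -/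
def Step {V : Type} [DecidableEq V] (G : SimpleGraph V) (A B : V → ℕ) : Prop :=
  ∃ u v : V, G.Adj u v ∧ 2 ≤ A u ∧
    B = Function.update (Function.update A u (A u - 2)) v (A v + 1)

/-- `C` is `k`-fold solvable: every vertex `r` can get at least `k` pebbles by pebbling steps -/
def Solvable {V : Type} [DecidableEq V] (G : SimpleGraph V) (k : ℕ) (C : V → ℕ) : Prop :=
  ∀ r : V, ∃ B : V → ℕ, Relation.ReflTransGen (Step G) C B ∧ k ≤ B r

/-- the optimal `k`-pebbling number: the least size of a `k`-fold solvable configuration -/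
noncomputable def piStar {V : Type} [Fintype V] [DecidableEq V] (G : SimpleGraph V) (k : ℕ) : ℕ :=
  sInf {s | ∃ C : V → ℕ, Solvable G k C ∧ ∑ v, C v = s}

/-- `L` is the fractional optimal pebbling number of `G`: the limit of `piStar G k / k` -/
def IsFracPiStar {V : Type} [Fintype V] [DecidableEq V] (G : SimpleGraph V) (L : ℝ) : Prop :=
  Tendsto (fun k : ℕ => (piStar G k : ℝ) / k) atTop (𝓝 L)

open Pool.Agent.H30PB

section
variable {V : Type} [Fintype V] [DecidableEq V] (G : SimpleGraph V)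

theorem nonemp (k : ℕ) : {s | ∃ C : V → ℕ, Solvable G k C ∧ ∑ v, C v = s}.Nonempty :=
  ⟨_, fun _ => k, fun _ => ⟨_, Relation.ReflTransGen.refl, le_rfl⟩, rfl⟩

theorem attained (k : ℕ) : ∃ C : V → ℕ, Solvable G k C ∧ ∑ v, C v = piStar G k :=
  Nat.sInf_mem (nonemp G k)

theorem le_of_solvable {k : ℕ} {C : V → ℕ} (h : Solvable G k C) : piStar G k ≤ ∑ v, C v :=
  Nat.sInf_le ⟨C, h, rfl⟩

omit [Fintype V] in
theorem add_solvable {m n : ℕ} {C D : V → ℕ} (h1 : Solvable G m C) (h2 : Solvable G n D) :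
    Solvable G (m + n) (C + D) := by
  intro r
  obtain ⟨B, hB, hB1⟩ := h1 r
  obtain ⟨B', hB', hB1'⟩ := h2 r
  refine ⟨B + B', ?_, by simp only [Pi.add_apply]; omega⟩
  have e1 : Rch G (C + D) (B + D) := Rch.add (G := G) hB D
  have e2 : Rch G (D + B) (B' + B) := Rch.add (G := G) hB' B
  rw [add_comm D B, add_comm B' B] at e2
  exact e1.trans e2

theorem subadd : Subadditive (fun k : ℕ => (piStar G k : ℝ)) := by
  intro m n
  obtain ⟨C, hC, hC1⟩ := attained G m
  obtain ⟨D, hD, hD1⟩ := attained G n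
  have := le_of_solvable G (add_solvable G hC hD)
  simp only [Pi.add_apply, Finset.sum_add_distrib, hC1, hD1] at this
  change (piStar G (m + n) : ℝ) ≤ (piStar G m : ℝ) + (piStar G n : ℝ)
  exact_mod_cast this

theorem bdd : BddBelow (Set.range fun k : ℕ => (piStar G k : ℝ) / k) := by
  refine ⟨0, ?_⟩
  rintro _ ⟨k, rfl⟩
  positivity

theorem le_piStar [Nonempty V] (k : ℕ) : k ≤ piStar G k := by
  obtain ⟨C, hC, hC1⟩ := attained G k
  obtain ⟨B, hB, hB1⟩ := hC (Classical.arbitrary V)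
  have hw := weight (G := G) (fun _ => 0) (fun _ _ _ => by omega) hB
  simp only [pow_zero, mul_one] at hw
  have h1 := Finset.single_le_sum (f := B) (fun _ _ => Nat.zero_le _)
    (Finset.mem_univ (Classical.arbitrary V))
  omega

end

theorem card_Om (d : ℕ) : Fintype.card (Om d) ≤ 2 ^ d := by
  have h := Fintype.card_subtype_le (fun x : Fin d → ZMod 2 => x ≠ 0)
  simpa [ZMod.card] using h

theorem nonempty_Om (M : ℕ) : Nonempty (Om (2 * M + 1)) :=
  ⟨⟨fun _ => 1, fun e => by simpa using congrFun e 0⟩⟩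

theorem rpow_bound (x : ℝ) (h : ℕ) (hx0 : 0 ≤ x) (hx : x ≤ 2 ^ (4 * h + 6)) :
    x ^ (1 / 4 : ℝ) ≤ 3 * 2 ^ h := by
  have h1 : x ≤ (3 * 2 ^ h : ℝ) ^ 4 := by
    refine hx.trans ?_
    have : (2 : ℝ) ^ (4 * h + 6) = 64 * (2 ^ h) ^ 4 := by ring
    rw [this, mul_pow]
    nlinarith [pow_pos (pow_pos (two_pos (α := ℝ)) h) 4]
  have h2 := Real.rpow_le_rpow hx0 h1 (z := 1 / 4) (by norm_num)
  have h3 : ((3 * 2 ^ h : ℝ) ^ 4) ^ (1 / 4 : ℝ) = 3 * 2 ^ h := by
    have := Real.pow_rpow_inv_natCast (x := (3 * 2 ^ h : ℝ)) (n := 4) (by positivity) (by norm_num)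
    convert this using 2
    norm_num
  rwa [h3] at h2

/-- The optimal pebbling number `π*(G) = piStar G 1` is not bounded by a constant times the
fractional optimal pebbling number: for every `N` there is a finite connected graph `G` with
`n ≥ N` vertices and `π*(G) ≥ (1/12) (log₂ n)^(1/4) L`, where `L ≥ 1` is the fractional optimal
pebbling number of `G`. -/
theorem result (N : ℕ) : ∃ (V : Type) (_ : Fintype V) (_ : DecidableEq V) (G : SimpleGraph V)
    (L : ℝ), G.Connected ∧ N ≤ Fintype.card V ∧ IsFracPiStar G L ∧ 1 ≤ L ∧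
      1 / 12 * (Real.logb 2 (Fintype.card V)) ^ (1 / 4 : ℝ) * L ≤ (piStar G 1 : ℝ) := by
  classical
  obtain ⟨h, hN⟩ : ∃ h, N ≤ h + 1 := ⟨N, by omega⟩
  obtain ⟨M, hM⟩ : ∃ M, M = 2 * 2 ^ (4 * h + 2) := ⟨_, rfl⟩
  have hne := nonempty_Om M
  let Ω := Om (2 * M + 1)
  let R := RR (2 * M + 1)
  have hsym : ∀ x y, R x y → R y x := fun x y hxy => by
    change x.1 ⬝ᵥ y.1 = 1 at hxy
    change y.1 ⬝ᵥ x.1 = 1
    rwa [dotProduct_comm]
  have hpos : 0 < Fintype.card Ω := Fintype.card_pos
  have hconn : (GG R h).Connected := by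
    have : Nonempty (Ω × Ω × Fin (h + 1)) := inferInstance
    refine ⟨fun a b => ?_⟩
    obtain ⟨z, h1, h2⟩ := common a.1 b.1
    obtain ⟨p, _⟩ := (near3 R h z a h1).symm.trans (near3 R h z b h2)
    exact ⟨p⟩
  have hV : Nonempty (Ω × Ω × Fin (h + 1)) := inferInstance
  have hup : piStar (GG R h) ((Fintype.card Ω + 1) / 2) ≤ Fintype.card Ω * 2 ^ (3 * h + 3) := by
    refine (le_of_solvable (GG R h)
      (C := ∑ z : Ω, Pi.single (z, z, 0) (2 ^ (3 * h + 3))) (fun r => ?_)).trans ?_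
    · obtain ⟨B, h1, h2⟩ := many (G := GG R h) (fun z : Ω => (z, z, 0)) r (3 * h + 3)
        (Finset.univ.filter fun z => R z r.1)
        (fun z hz => near3 _ _ _ _ (Finset.mem_filter.1 hz).2)
        (∑ z ∈ Finset.univ.filter fun z => ¬ R z r.1, Pi.single (z, z, 0) (2 ^ (3 * h + 3)))
      rw [Finset.sum_filter_add_sum_filter_not] at h1
      have h3 : Fintype.card Ω ≤ 2 * (Finset.univ.filter fun z => R z r.1).card := by
        convert half r.1
      have h4 : (Finset.univ.filter fun z => R z r.1).card ≤ B r := by convert h2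
      exact ⟨B, h1, by omega⟩
    · simp only [Finset.sum_apply]
      rw [Finset.sum_comm]
      simp
  have hlow : 2 ^ (4 * h + 2) ≤ piStar (GG R h) 1 := by
    obtain ⟨E, hE, hE1⟩ := attained (GG R h) 1
    rw [← hE1]
    refine lower R h hsym (fun S hS => ?_) E hE
    exact far M S (hS.trans hM.ge)
  refine ⟨Ω × Ω × Fin (h + 1), inferInstance, inferInstance, GG R h, (subadd (GG R h)).lim,
    hconn, ?_, (subadd (GG R h)).tendsto_lim (bdd _), ?_, ?_⟩
  · simp only [Fintype.card_prod, Fintype.card_fin]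
    have : 1 ≤ Fintype.card Ω := hpos
    calc N ≤ h + 1 := hN
      _ = 1 * (1 * (h + 1)) := by ring
      _ ≤ Fintype.card Ω * (Fintype.card Ω * (h + 1)) := by gcongr
  · refine ge_of_tendsto ((subadd (GG R h)).tendsto_lim (bdd _)) ?_
    filter_upwards [eventually_ge_atTop 1] with k hk
    rw [le_div_iff₀ (by positivity), one_mul]
    exact_mod_cast le_piStar (GG R h) k
  · -- the upper bound for the limit
    have hT : (Fintype.card Ω + 1) / 2 ≠ 0 := by omega
    have hL := (subadd (GG R h)).lim_le_div (bdd _) hT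
    have hT' : (0 : ℝ) < (((Fintype.card Ω + 1) / 2 : ℕ) : ℝ) := by
      exact_mod_cast Nat.pos_of_ne_zero hT
    have hL2 : (subadd (GG R h)).lim ≤ 2 ^ (3 * h + 4) := by
      refine hL.trans ?_
      rw [div_le_iff₀ hT']
      have h1 : Fintype.card Ω ≤ 2 * ((Fintype.card Ω + 1) / 2) := by omega
      have h2 : piStar (GG R h) ((Fintype.card Ω + 1) / 2) ≤
          2 ^ (3 * h + 4) * ((Fintype.card Ω + 1) / 2) := by
        refine hup.trans ((Nat.mul_le_mul_right _ h1).trans (le_of_eq ?_))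
        ring
      exact_mod_cast h2
    have hL0 : 0 ≤ (subadd (GG R h)).lim :=
      ge_of_tendsto ((subadd (GG R h)).tendsto_lim (bdd _)) (Eventually.of_forall fun k => by
        positivity)
    -- the number of vertices
    have hcard : Fintype.card (Ω × Ω × Fin (h + 1)) ≤ 2 ^ (2 ^ (4 * h + 6)) := by
      simp only [Fintype.card_prod, Fintype.card_fin]
      have h1 : Fintype.card Ω ≤ 2 ^ (2 * M + 1) := card_Om _
      have h2 : h + 1 ≤ 2 ^ h := Nat.lt_two_pow_self
      calc Fintype.card Ω * (Fintype.card Ω * (h + 1))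
          ≤ 2 ^ (2 * M + 1) * (2 ^ (2 * M + 1) * 2 ^ h) := by gcongr
        _ = 2 ^ (4 * M + 2 + h) := by rw [← pow_add, ← pow_add]; congr 1; ring
        _ ≤ 2 ^ (2 ^ (4 * h + 6)) := by
          refine Nat.pow_le_pow_right (by norm_num) ?_
          have h3 : h < 2 ^ h := Nat.lt_two_pow_self
          have h4 : 2 ^ h ≤ 2 ^ (4 * h) := Nat.pow_le_pow_right (by norm_num) (by omega)
          have h5 : 1 ≤ 2 ^ (4 * h) := Nat.one_le_two_pow
          have h6 : 2 ^ (4 * h + 2) = 4 * 2 ^ (4 * h) := by ring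
          have h7 : 2 ^ (4 * h + 6) = 64 * 2 ^ (4 * h) := by ring
          rw [hM, h6, h7]
          omega
    have hc1 : (1 : ℝ) ≤ (Fintype.card (Ω × Ω × Fin (h + 1)) : ℝ) := by
      exact_mod_cast Fintype.card_pos (α := Ω × Ω × Fin (h + 1))
    have hlog0 : 0 ≤ Real.logb 2 (Fintype.card (Ω × Ω × Fin (h + 1))) :=
      Real.logb_nonneg (by norm_num) hc1
    have hlog : Real.logb 2 (Fintype.card (Ω × Ω × Fin (h + 1))) ≤ 2 ^ (4 * h + 6) := by
      rw [Real.logb_le_iff_le_rpow (by norm_num) (by linarith)]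
      have : ((2 : ℝ) ^ ((2 : ℝ) ^ (4 * h + 6))) = 2 ^ (2 ^ (4 * h + 6) : ℕ) := by
        rw [← Real.rpow_natCast 2 (2 ^ (4 * h + 6))]
        push_cast
        rfl
      rw [this]
      exact_mod_cast hcard
    have hr := rpow_bound _ h hlog0 hlog
    have hlow' : (2 : ℝ) ^ (4 * h + 2) ≤ (piStar (GG R h) 1 : ℝ) := by exact_mod_cast hlow
    refine le_trans ?_ hlow'
    calc 1 / 12 * (Real.logb 2 (Fintype.card (Ω × Ω × Fin (h + 1)))) ^ (1 / 4 : ℝ) *
          (subadd (GG R h)).lim
        ≤ 1 / 12 * (3 * 2 ^ h) * 2 ^ (3 * h + 4) := by gcongr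
      _ = 2 ^ (4 * h + 2) := by ring

end Pool.Agent.Results.MP_74a576_co.Quantitative
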